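import Pool.Agent.H77.OjDefs
import Pool.Agent.H77.OjB

namespace Pool.Agent.Results.MP_3ec6ac_an.Cycle

open H77.Oj Filter Topology Set
open scoped ContDiff

theorem result : ∃ P Q : ℝ × ℝ → ℝ, ContDiff ℝ ∞ P ∧ ContDiff ℝ ∞ Q ∧
    (∀ x y : ℝ, deriv (fun u => P (u, y)) x * deriv (fun v => P (x, v)) y +
      deriv (fun u => Q (u, y)) x * deriv (fun v => Q (x, v)) y = 0) ∧
    ∃ γ, IsLimitCycle (fun p => (P p, Q p)) γ := by
  obtain ⟨κ, cκ, κ1, κ2⟩ := clamp_exists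
  have cw : ContDiff ℝ ∞ fun u => √(W (κ u)) :=
    (cd_W.comp cκ).sqrt fun u => (W_bd (κ2 u)).1.ne'
  obtain ⟨Y, S, dY, cS, dS, SY, YS⟩ := inv_exists (fun u => E (κ u) / √(W (κ u)))
    ((cd_E.comp cκ).div cw fun u => (sqrtW_bd (κ2 u)).1.ne') (1 / 12) (by norm_num) fun u => by
      rw [le_div_iff₀ (sqrtW_bd (κ2 u)).1]; linarith [(sqrtW_bd (κ2 u)).2, E_bd (κ2 u)]
  set g : ℝ → ℝ := fun y => κ (S y) * √(W (κ (S y))) with hg
  set G : ℝ → ℝ := fun y => F (κ (S y)) with hG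
  set r : ℝ → ℝ := fun x => (5 / 2 + κ (x - 5 / 2))⁻¹ with hr
  have cg : ContDiff ℝ ∞ g := (cκ.comp cS).mul (cw.comp cS)
  have cG : ContDiff ℝ ∞ G := cd_F.comp (cκ.comp cS)
  have cr : ContDiff ℝ ∞ r := (contDiff_const.add (cκ.comp (contDiff_id.sub contDiff_const))).inv
    fun x => by have := abs_le.1 (κ2 (x - 5 / 2)); simp only [Function.comp, id]; linarith [this.1]
  have cP : ContDiff ℝ ∞ fun p : ℝ × ℝ => g p.2 * r p.1 :=
    (cg.comp contDiff_snd).mul (cr.comp contDiff_fst)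
  have cQ : ContDiff ℝ ∞ fun p : ℝ × ℝ => G p.2 * r p.1 - 1 :=
    ((cG.comp contDiff_snd).mul (cr.comp contDiff_fst)).sub contDiff_const
  refine ⟨_, _, cP, cQ, orth (cr.differentiable (by simp)) (cg.differentiable (by simp))
    (cG.differentiable (by simp)) fun y => sq_sum (κ2 _), ?_⟩
  have cb := fun θ => circle_bd (Real.sin_sq_add_cos_sq θ)
  have cb' : ∀ θ, |Real.cos θ| ≤ 3 / 2 := fun θ => by linarith [(cb θ).1]
  have xb : ∀ θ, 1 ≤ Real.sin θ + ph (Real.cos θ) := fun θ => by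
    linarith [(abs_lt.1 (cb θ).2.1).1]
  set f : ℝ → ℝ := fun θ => (Real.sin θ + ph (Real.cos θ)) * E (Real.cos θ) /
    (√(W (Real.cos θ)) * D (Real.cos θ) (Real.sin θ)) with hf
  have fb : ∀ θ, 1 / 24 ≤ f θ := fun θ => by
    obtain ⟨w1, w2⟩ := sqrtW_bd (cb' θ)
    rw [hf, le_div_iff₀ (mul_pos w1 (cb θ).2.2.1)]
    nlinarith [mul_le_mul w2 (cb θ).2.2.2.1 (cb θ).2.2.1.le (by norm_num),
      mul_le_mul (xb θ) (E_bd (cb' θ)) (by norm_num) (by linarith [xb θ])]
  have cf : ContDiff ℝ ∞ f := by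
    refine ContDiff.div (by fun_prop) (((cd_W.comp Real.contDiff_cos).sqrt
      fun u => (W_bd (cb' u)).1.ne').mul (by unfold D; fun_prop)) fun θ =>
      (mul_pos (sqrtW_bd (cb' θ)).1 (cb θ).2.2.1).ne'
  obtain ⟨Z, Θ, dZ, -, dΘ, ΘZ, ZΘ⟩ := inv_exists f cf (1 / 24) (by norm_num) fb
  set γ : ℝ → ℝ × ℝ := fun t => (Real.sin (Θ t) + ph (Real.cos (Θ t)), Y (Real.cos (Θ t))) with hγ
  have dγ : ∀ t, HasDerivAt γ (g (γ t).2 * r (γ t).1, G (γ t).2 * r (γ t).1 - 1) t := by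
    intro t
    have d1 := (dΘ t).sin.add ((d_ph _).comp t (dΘ t).cos)
    have d2 := (dY _).comp t (dΘ t).cos
    refine HasDerivAt.congr_deriv (d1.prodMk d2) ?_
    obtain ⟨b1, b2, b3, -⟩ := cb (Θ t)
    have b4 := (sqrtW_bd (cb' (Θ t))).1.ne'
    have b5 : E (Real.cos (Θ t)) ≠ 0 := by linarith [E_bd (cb' (Θ t))]
    have b6 : Real.sin (Θ t) + ph (Real.cos (Θ t)) ≠ 0 := by linarith [xb (Θ t)]
    have b7 := b3.ne'
    have b8 := Real.sin_sq_add_cos_sq (Θ t)
    simp only [hγ, hg, hG, hr, hf, SY, κ1 _ b1, κ1 _ b2, add_sub_cancel, Prod.mk.injEq]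
    generalize Real.sin (Θ t) = σ at *
    generalize Real.cos (Θ t) = s at *
    constructor
    · field_simp
      unfold D E
      linear_combination (-4 * m s ^ 2 * s) * b8
    · field_simp
      unfold D F A ph m
      linear_combination (1 / 2 + s ^ 3 / 10) * b8
  have Zp : ∀ θ, Z (θ + 2 * Real.pi) = Z θ + (Z (2 * Real.pi) - Z 0) := fun θ => by
    have k : ∀ θ, HasDerivAt (fun θ => Z (θ + 2 * Real.pi) - Z θ) 0 θ := fun θ => by
      refine HasDerivAt.congr_deriv (((dZ _).comp_add_const θ _).sub (dZ θ)) ?_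
      simp [hf]
    have := is_const_of_deriv_eq_zero (fun θ => (k θ).differentiableAt) (fun θ => (k θ).deriv) θ 0
    simp only [zero_add] at this
    linarith
  have T0 : 0 < Z (2 * Real.pi) - Z 0 := sub_pos.2 <|
    strictMono_of_hasDerivAt_pos dZ (fun θ => by linarith [fb θ]) Real.two_pi_pos
  have pγ : Function.Periodic γ (Z (2 * Real.pi) - Z 0) := fun t => by
    have : Θ (t + (Z (2 * Real.pi) - Z 0)) = Θ t + 2 * Real.pi := by
      rw [← ΘZ (Θ t + 2 * Real.pi), Zp, ZΘ]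
    simp [hγ, this]
  refine ⟨γ, ⟨dγ, ⟨_, T0, pγ⟩, ?_⟩, {p | |S p.2| < 13 / 10 ∧ |p.1 - 5 / 2| < 13 / 10 ∧
    0 < D (S p.2) (p.1 - ph (S p.2)) ∧ N (S p.2) (p.1 - ph (S p.2)) < 0}, ?_, ?_, ?_⟩
  · by_contra hn
    push Not at hn
    have := congrArg (fun p => S p.2) ((hn (Z 0)).trans (hn (Z Real.pi)).symm)
    simp only [hγ, SY, ΘZ, Real.cos_zero, Real.cos_pi] at this
    norm_num at this
  · have c1 := cS.continuous
    have c2 := cd_ph.continuous
    have c3 := cd_m.continuous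
    simp only [setOf_and]
    unfold N a D
    refine (isOpen_lt ?_ ?_).inter ((isOpen_lt ?_ ?_).inter
      ((isOpen_lt ?_ ?_).inter (isOpen_lt ?_ ?_))) <;> fun_prop
  · rintro _ ⟨t, rfl⟩
    obtain ⟨b1, b2, b3, -, b4⟩ := cb (Θ t)
    simp only [hγ, mem_setOf_eq, SY, add_sub_cancel_right]
    exact ⟨b1, b2, b3, b4⟩
  · rintro η ⟨dη, ⟨T, hT, pη⟩, -⟩ hU
    have hU' := fun t => hU (mem_range_self t)
    simp only [mem_setOf_eq] at hU'
    have e1 : ∀ t, HasDerivAt (fun t => (η t).1) (g (η t).2 * r (η t).1) t := fun t =>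
      (ContinuousLinearMap.fst ℝ ℝ ℝ).hasFDerivAt.comp_hasDerivAt t (dη t)
    have e2 : ∀ t, HasDerivAt (fun t => (η t).2) (G (η t).2 * r (η t).1 - 1) t := fun t =>
      (ContinuousLinearMap.snd ℝ ℝ ℝ).hasFDerivAt.comp_hasDerivAt t (dη t)
    have sb : ∀ t, |S (η t).2| ≤ 3 / 2 := fun t => by linarith [(hU' t).1]
    have xp : ∀ t, 0 < (η t).1 := fun t => by linarith [(abs_lt.1 (hU' t).2.1).1]
    have ds : ∀ t, HasDerivAt (fun t => S (η t).2) (√(W (S (η t).2)) / (E (S (η t).2) * (η t).1) *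
        a (S (η t).2) ((η t).1 - ph (S (η t).2))) t := fun t => by
      refine HasDerivAt.congr_deriv ((dS _).comp t (e2 t)) ?_
      have b4 := (sqrtW_bd (sb t)).1.ne'
      have b5 : E (S (η t).2) ≠ 0 := by linarith [E_bd (sb t)]
      have b6 := (xp t).ne'
      simp only [hG, hr, κ1 _ (hU' t).1, κ1 _ (hU' t).2.1, add_sub_cancel]
      field_simp
      unfold a F A ph m
      ring
    have circ := on_circle (σ := fun t => (η t).1 - ph (S (η t).2)) ds (fun t => ?_)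
      (fun t => div_pos (sqrtW_bd (sb t)).1 (mul_pos (by linarith [E_bd (sb t)]) (xp t)))
      (fun t => (hU' t).2.2.1) (fun t => (hU' t).2.2.2) hT (fun t => by simp only [pη t])
      fun t => by simp only [pη t]
    · have inr : ∀ t, η t ∈ range γ := fun t => by
        obtain ⟨θ, h1, h2⟩ := exists_angle (circ t)
        exact ⟨Z θ, by simp only [hγ, ΘZ, h1, h2, YS, sub_add_cancel]⟩
      obtain ⟨t0, ht0⟩ := inr 0
      obtain ⟨K, hK⟩ := LocallyLipschitzOn.exists_lipschitzOnWith_of_compact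
        (pγ.compact_of_continuous T0.ne' (continuous_iff_continuousAt.2 fun t =>
          (dγ t).continuousAt))
        ((cP.prodMk cQ).of_le (m := 1) (by simp)).locallyLipschitz.locallyLipschitzOn
      have := ODE_solution_unique_univ (t₀ := 0) (f := η) (g := fun t => γ (t + t0))
        (v := fun _ p => (g p.2 * r p.1, G p.2 * r p.1 - 1)) (s := fun _ => range γ)
        (fun _ => hK) (fun t => ⟨dη t, inr t⟩)
        (fun t => ⟨(dγ _).comp_add_const t t0, mem_range_self _⟩) (by simp [ht0])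
      rw [this]
      exact (add_right_surjective t0).range_comp γ
    · refine HasDerivAt.congr_deriv ((e1 t).sub ((d_ph _).comp t (ds t))) ?_
      have b4 := (sqrtW_bd (sb t)).1.ne'
      have b5 : E (S (η t).2) ≠ 0 := by linarith [E_bd (sb t)]
      have b6 := (xp t).ne'
      simp only [hg, hr, κ1 _ (hU' t).1, κ1 _ (hU' t).2.1, add_sub_cancel]
      field_simp
      unfold a D E
      ring

end Pool.Agent.Results.MP_3ec6ac_an.Cycle
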